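import Pool.Agent.H40.EGD.Targets

namespace Pool.Agent.H41.EGD

open MeasureTheory Set Metric Filter Topology Pool.Agent.H40.EGD

theorem NUL_inj (u : ℂ) (β φ : ℝ) (hu : ‖u‖ = 1)
    (hβ : Complex.exp ((β : ℂ) * Complex.I) = Complex.I * u)
    (hφ : φ ∈ Ioo (-(Real.pi / 2)) (Real.pi / 2)) (x y : ℝ)
    (h : (x : ℂ) * u + (y : ℂ) * Complex.exp (((φ + β : ℝ) : ℂ) * Complex.I) = 0) :
    x = 0 ∧ y = 0 := by
  have hu0 : u ≠ 0 := by
    intro h0
    rw [h0, norm_zero] at hu
    exact zero_ne_one hu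
  have e1 : Complex.exp (((φ + β : ℝ) : ℂ) * Complex.I) =
      Complex.exp ((φ : ℂ) * Complex.I) * (Complex.I * u) := by
    rw [← hβ, ← Complex.exp_add]
    congr 1
    push_cast
    ring
  rw [e1] at h
  have h1 : ((x : ℂ) + (y : ℂ) * (Complex.exp ((φ : ℂ) * Complex.I) * Complex.I)) * u = 0 := by
    rw [← h]; ring
  have h2 := (mul_eq_zero.mp h1).resolve_right hu0
  have hcos : 0 < Real.cos φ := Real.cos_pos_of_mem_Ioo hφ
  rw [Complex.exp_mul_I, ← Complex.ofReal_cos, ← Complex.ofReal_sin] at h2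
  have him := congrArg Complex.im h2
  have hre := congrArg Complex.re h2
  simp at him hre
  have hy : y = 0 := by
    rcases him with h | h
    · exact h
    · exact absurd h hcos.ne'
  rw [hy] at hre
  simp at hre
  exact ⟨hre, hy⟩

theorem NUL : T_NUL := by
  intro p u β N hu hβ hN
  have h0 : ∀ᵐ z : ℂ × ℝ, z ∉ N := measure_eq_zero_iff_ae_notMem.mp hN
  have h1 : ∀ᵐ z : ℝ × ℂ, z.swap ∉ N := by
    have hs : Measure.QuasiMeasurePreserving (Prod.swap : ℝ × ℂ → ℂ × ℝ)
        ((volume : Measure ℝ).prod (volume : Measure ℂ))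
        ((volume : Measure ℂ).prod (volume : Measure ℝ)) :=
      (Measure.measurePreserving_swap).quasiMeasurePreserving
    exact hs.ae h0
  have h2 : ∀ᵐ θ : ℝ, ∀ᵐ y : ℂ, (y, θ) ∉ N := Measure.ae_ae_of_ae_prod h1
  have h3 : ∀ᵐ φ : ℝ, ∀ᵐ y : ℂ, (y, φ + β) ∉ N :=
    (measurePreserving_add_right (volume : Measure ℝ) β).quasiMeasurePreserving.ae h2
  filter_upwards [h3] with φ hφN hφ
  let f : ℂ →ₗ[ℝ] ℂ :=
    { toFun := fun z => (z.re : ℂ) * u + (z.im : ℂ) * Complex.exp (((φ + β : ℝ) : ℂ) * Complex.I)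
      map_add' := by
        intro a b
        simp only [Complex.add_re, Complex.add_im]
        push_cast
        ring
      map_smul' := by
        intro c a
        simp only [Complex.real_smul, Complex.re_ofReal_mul, Complex.im_ofReal_mul,
          RingHom.id_apply]
        push_cast
        ring }
  have hinj : Function.Injective f := by
    rw [← LinearMap.ker_eq_bot, LinearMap.ker_eq_bot']
    intro z hz
    obtain ⟨a, b⟩ := NUL_inj u β φ hu hβ hφ z.re z.im hz
    exact Complex.ext a b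
  have hdet : LinearMap.det f ≠ 0 := by
    have h4 := (LinearEquiv.ofInjectiveEndo f hinj).isUnit_det'
    have h5 : ((LinearEquiv.ofInjectiveEndo f hinj : ℂ ≃ₗ[ℝ] ℂ) : ℂ →ₗ[ℝ] ℂ) = f := by
      ext z
      rfl
    rw [h5] at h4
    exact h4.ne_zero
  have hq := Measure.LinearMap.quasiMeasurePreserving (volume : Measure ℂ) f hdet
  have h6 : ∀ᵐ y : ℂ, (p + y, φ + β) ∉ N :=
    (measurePreserving_add_left (volume : Measure ℂ) p).quasiMeasurePreserving.ae hφN
  have h7 : ∀ᵐ z : ℂ, (p + f z, φ + β) ∉ N := hq.ae h6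
  have h8 : ∀ᵐ z : ℝ × ℝ, (p + f (Complex.measurableEquivRealProd.symm z), φ + β) ∉ N :=
    (Complex.volume_preserving_equiv_real_prod.symm).quasiMeasurePreserving.ae h7
  have h9 : ∀ᵐ s : ℝ, ∀ᵐ r : ℝ,
      (p + f (Complex.measurableEquivRealProd.symm (s, r)), φ + β) ∉ N :=
    Measure.ae_ae_of_ae_prod h8
  filter_upwards [h9] with s hs
  filter_upwards [hs] with r hr
  have e : p + f (Complex.measurableEquivRealProd.symm (s, r)) =
      p + (s : ℂ) * u + (r : ℂ) * Complex.exp (((φ + β : ℝ) : ℂ) * Complex.I) := by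
    change p + ((s : ℂ) * u + (r : ℂ) * Complex.exp (((φ + β : ℝ) : ℂ) * Complex.I)) = _
    ring
  rwa [e] at hr

end Pool.Agent.H41.EGD
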